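import Pool.Agent.P8H82.FF.Stm
import Pool.Agent.P8H52.JG.Asz

/-!
# Project FF (helper82), package ASZX: adapted from the package ASZ by helper52
-/

set_option autoImplicit false
set_option linter.unusedSectionVars false

namespace Pool.Agent.P8H88.FF

open NumberField IsDedekindDomain MeasureTheory Filter Topology
open Pool.Agent.P8H82.JG (Gold Triple Rep rad dens Cnd dl nP ord c0 emb Reg KK Jor shp S_LP S_LOC
  S_TL S_SM S_C0)
open Pool.Agent.P8H82.FF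
open Pool.Agent.P8H52.JG (cnd_congr mo mo_ne mo_norm mo_mem mo_le crt crt_mk crt_bij fin_box)

variable {K : Type} [Field K] [NumberField K] {σ τ : K →+* ℝ}

/-- the exact condition depends only on the residue classes -/
lemma ex_congr {P : HeightOneSpectrum (𝓞 K)} {e : ℕ} {a b a' b' : 𝓞 K}
    (ha : a - a' ∈ P.asIdeal ^ (e + 2)) (hb : b - b' ∈ P.asIdeal ^ (e + 2)) (h : Ex P e a b) :
    Ex P e a' b' := by
  have hle1 : P.asIdeal ^ (e + 2) ≤ P.asIdeal := Ideal.pow_le_self (by omega)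
  have hle2 : P.asIdeal ^ (e + 2) ≤ P.asIdeal ^ (e + 1) := Ideal.pow_le_pow_right (by omega)
  have hle3 : P.asIdeal ^ (e + 2) ≤ P.asIdeal ^ e := Ideal.pow_le_pow_right (by omega)
  have h3 : a * b * (a + b) - a' * b' * (a' + b') ∈ P.asIdeal ^ (e + 2) := by
    have e2 : a * b * (a + b) - a' * b' * (a' + b') =
        (a - a') * (b * (a + a' + b)) + (b - b') * (a' * (a' + b + b')) := by ring
    rw [e2]
    exact Ideal.add_mem _ (Ideal.mul_mem_right _ _ ha) (Ideal.mul_mem_right _ _ hb)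
  obtain ⟨h4, h5, h6⟩ := h
  refine ⟨?_, ?_, ?_⟩
  · rintro ⟨h7, h8⟩
    apply h4
    constructor
    · have : a = (a - a') + a' := by ring
      rw [this]
      exact Ideal.add_mem _ (hle1 ha) h7
    · have : b = (b - b') + b' := by ring
      rw [this]
      exact Ideal.add_mem _ (hle1 hb) h8
  · have : a' * b' * (a' + b') = a * b * (a + b) - (a * b * (a + b) - a' * b' * (a' + b')) := by
      ring
    rw [this]
    exact Ideal.sub_mem _ h5 (hle3 h3)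
  · intro h7
    apply h6
    have : a * b * (a + b) = (a * b * (a + b) - a' * b' * (a' + b')) + a' * b' * (a' + b') := by
      ring
    rw [this]
    exact Ideal.add_mem _ (hle2 h3) h7

variable (T : Finset (HeightOneSpectrum (𝓞 K)))

lemma cx_congr {P : HeightOneSpectrum (𝓞 K)} {e : ℕ} {a b a' b' : 𝓞 K}
    (ha : a - a' ∈ P.asIdeal ^ (e + 2)) (hb : b - b' ∈ P.asIdeal ^ (e + 2))
    (h : CX T P e a b) : CX T P e a' b' :=
  ⟨fun hP => ex_congr ha hb (h.1 hP), fun hP => cnd_congr ha hb (h.2 hP)⟩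

variable (ν : HeightOneSpectrum (𝓞 K) → ℕ) (Z : Finset (HeightOneSpectrum (𝓞 K)))

/-- the set of the pairs of classes with the local conditions -/
def SS : Set ((𝓞 K ⧸ mo ν Z) × (𝓞 K ⧸ mo ν Z)) :=
  {x | ∃ a b : 𝓞 K, x = (Ideal.Quotient.mk _ a, Ideal.Quotient.mk _ b) ∧
    ∀ P ∈ Z, CX T P (ν P) a b}

lemma mem_SS (a b : 𝓞 K) :
    ((Ideal.Quotient.mk (mo ν Z) a, Ideal.Quotient.mk (mo ν Z) b)) ∈ SS T ν Z ↔
    ∀ P ∈ Z, CX T P (ν P) a b := by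
  constructor
  · rintro ⟨a', b', h1, h2⟩ P hP
    rw [Prod.mk.injEq, Ideal.Quotient.eq, Ideal.Quotient.eq, mo_mem, mo_mem] at h1
    apply cx_congr T (a := a') (b := b') _ _ (h2 P hP)
    · have := h1.1 P hP
      rw [← Ideal.neg_mem_iff, neg_sub] at this
      exact this
    · have := h1.2 P hP
      rw [← Ideal.neg_mem_iff, neg_sub] at this
      exact this
  · intro h
    exact ⟨a, b, rfl, h⟩

/-- the local set -/
def SP (P : HeightOneSpectrum (𝓞 K)) (e : ℕ) :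
    Set ((𝓞 K ⧸ P.asIdeal ^ (e + 2)) × (𝓞 K ⧸ P.asIdeal ^ (e + 2))) :=
  {x | ∃ a b : 𝓞 K, x = (Ideal.Quotient.mk _ a, Ideal.Quotient.mk _ b) ∧ CX T P e a b}

lemma mem_SP (P : HeightOneSpectrum (𝓞 K)) (e : ℕ) (a b : 𝓞 K) :
    ((Ideal.Quotient.mk (P.asIdeal ^ (e + 2)) a, Ideal.Quotient.mk (P.asIdeal ^ (e + 2)) b)) ∈
      SP T P e ↔ CX T P e a b := by
  constructor
  · rintro ⟨a', b', h1, h2⟩
    rw [Prod.mk.injEq, Ideal.Quotient.eq, Ideal.Quotient.eq] at h1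
    apply cx_congr T (a := a') (b := b') _ _ h2
    · have := h1.1
      rw [← Ideal.neg_mem_iff, neg_sub] at this
      exact this
    · have := h1.2
      rw [← Ideal.neg_mem_iff, neg_sub] at this
      exact this
  · intro h
    exact ⟨a, b, rfl, h⟩

lemma SP_card (hloc : S_LOC) (hlocx : S_LOCX) (P : HeightOneSpectrum (𝓞 K)) (e : ℕ) :
    (((SP T P e).ncard : ℕ) : ℝ) = dX T P e * (nP P ^ (e + 2)) ^ 2 := by
  classical
  by_cases hP : P ∈ T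
  · have h1 : SP T P e = {x : (𝓞 K ⧸ P.asIdeal ^ (e + 2)) × (𝓞 K ⧸ P.asIdeal ^ (e + 2)) |
        ∃ a b : 𝓞 K, x = (Ideal.Quotient.mk _ a, Ideal.Quotient.mk _ b) ∧ Ex P e a b} := by
      ext x
      constructor
      · rintro ⟨a, b, h2, h3⟩
        exact ⟨a, b, h2, h3.1 hP⟩
      · rintro ⟨a, b, h2, h3⟩
        exact ⟨a, b, h2, fun _ => h3, fun h4 => absurd hP h4⟩
    have h2 : dX T P e = dx (nP P) e := by
      unfold dX
      rw [if_pos hP]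
    rw [h1, h2]
    exact hlocx K P e
  · have h1 : SP T P e = {x : (𝓞 K ⧸ P.asIdeal ^ (e + 2)) × (𝓞 K ⧸ P.asIdeal ^ (e + 2)) |
        ∃ a b : 𝓞 K, x = (Ideal.Quotient.mk _ a, Ideal.Quotient.mk _ b) ∧ Cnd P e a b} := by
      ext x
      constructor
      · rintro ⟨a, b, h2, h3⟩
        exact ⟨a, b, h2, h3.2 hP⟩
      · rintro ⟨a, b, h2, h3⟩
        exact ⟨a, b, h2, fun h4 => absurd h4 hP, fun _ => h3⟩
    have h2 : dX T P e = dl (nP P) e := by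
      unfold dX
      rw [if_neg hP]
    rw [h1, h2]
    exact hloc K P e

lemma SS_iff (x : (𝓞 K ⧸ mo ν Z) × (𝓞 K ⧸ mo ν Z)) :
    x ∈ SS T ν Z ↔ ∀ P : Z, crt ν Z x P ∈ SP T P.1 (ν P.1) := by
  obtain ⟨x1, x2⟩ := x
  obtain ⟨a, rfl⟩ := Ideal.Quotient.mk_surjective x1
  obtain ⟨b, rfl⟩ := Ideal.Quotient.mk_surjective x2
  rw [mem_SS]
  constructor
  · intro h P
    rw [crt_mk, mem_SP]
    exact h P.1 P.2
  · intro h P hP
    have := h ⟨P, hP⟩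
    rw [crt_mk, mem_SP] at this
    exact this

lemma SS_card : (SS T ν Z).ncard = ∏ P : Z, (SP T P.1 (ν P.1)).ncard := by
  have e1 : SS T ν Z ≃ {y : ∀ P : Z, (𝓞 K ⧸ P.1.asIdeal ^ (ν P.1 + 2)) ×
      (𝓞 K ⧸ P.1.asIdeal ^ (ν P.1 + 2)) // ∀ P, y P ∈ SP T P.1 (ν P.1)} :=
    (Equiv.ofBijective _ (crt_bij ν Z)).subtypeEquiv fun x => SS_iff T ν Z x
  have e2 := Equiv.subtypePiEquivPi (p := fun (P : Z) (y : (𝓞 K ⧸ P.1.asIdeal ^ (ν P.1 + 2)) ×
      (𝓞 K ⧸ P.1.asIdeal ^ (ν P.1 + 2))) => y ∈ SP T P.1 (ν P.1))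
  rw [← Nat.card_coe_set_eq, Nat.card_congr (e1.trans e2), Nat.card_pi]
  rfl

/-- **ASZX** -/
theorem aszx : S_LP → S_LOC → S_LOCX → S_ASZX := by
  intro hlp hloc hlocx K _ _ σ τ h T ν Z D hD
  classical
  have hfin : Finite (𝓞 K ⧸ mo ν Z) := Ideal.finiteQuotientOfFreeOfNeBot _ (mo_ne ν Z)
  have hfin2 : (SS T ν Z).Finite := Set.toFinite _
  -- representatives
  have hrep : ∀ c : (𝓞 K ⧸ mo ν Z) × (𝓞 K ⧸ mo ν Z), ∃ p : 𝓞 K × 𝓞 K,
      c = (Ideal.Quotient.mk _ p.1, Ideal.Quotient.mk _ p.2) := by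
    rintro ⟨c1, c2⟩
    obtain ⟨a, rfl⟩ := Ideal.Quotient.mk_surjective c1
    obtain ⟨b, rfl⟩ := Ideal.Quotient.mk_surjective c2
    exact ⟨(a, b), rfl⟩
  choose rp hrp using hrep
  have hlim : Tendsto (fun l : ℝ => ∑ c ∈ hfin2.toFinset,
      (({q : 𝓞 K × 𝓞 K | q.1 - (rp c).1 ∈ mo ν Z ∧ q.2 - (rp c).2 ∈ mo ν Z ∧
        emb σ τ l q.1 q.2 ∈ D}.ncard : ℕ) : ℝ) / l ^ 4) atTop
      (𝓝 (∑ c ∈ hfin2.toFinset, (volume D).toReal / (5 * (Ideal.absNorm (mo ν Z) : ℝ) ^ 2))) :=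
    tendsto_finsetSum _ fun c _ => hlp K σ τ h (mo ν Z) (mo_ne ν Z) (rp c).1 (rp c).2 D hD
  have hval : (∑ c ∈ hfin2.toFinset, (volume D).toReal / (5 * (Ideal.absNorm (mo ν Z) : ℝ) ^ 2)) =
      (volume D).toReal / 5 * ∏ P ∈ Z, dX T P (ν P) := by
    rw [Finset.sum_const, nsmul_eq_mul]
    have h1 : (hfin2.toFinset.card : ℝ) = ∏ P ∈ Z, (dX T P (ν P) * (nP P ^ (ν P + 2)) ^ 2) := by
      rw [← Set.ncard_eq_toFinset_card, SS_card]
      push_cast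
      rw [← Finset.prod_coe_sort Z (fun P => dX T P (ν P) * (nP P ^ (ν P + 2)) ^ 2)]
      refine Finset.prod_congr rfl fun P _ => ?_
      exact SP_card T hloc hlocx P.1 (ν P.1)
    rw [h1, Finset.prod_mul_distrib, Finset.prod_pow, ← mo_norm]
    have h2 : (Ideal.absNorm (mo ν Z) : ℝ) ≠ 0 := by
      have : Ideal.absNorm (mo ν Z) ≠ 0 := by
        rw [Ne, Ideal.absNorm_eq_zero_iff]
        exact mo_ne ν Z
      exact_mod_cast this
    field_simp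
  rw [hval] at hlim
  refine hlim.congr' ?_
  filter_upwards [eventually_gt_atTop 0] with l hl
  rw [← Finset.sum_div]
  congr 1
  have hf0 := fin_box h hD.1 hl
  set Y := {q : 𝓞 K × 𝓞 K | (∀ P ∈ Z, CX T P (ν P) q.1 q.2) ∧ emb σ τ l q.1 q.2 ∈ D} with hY
  have hYf : Y.Finite := hf0.subset fun q hq => hq.2
  rw [Set.ncard_eq_toFinset_card Y hYf]
  have hmaps : ∀ q ∈ hYf.toFinset,
      ((Ideal.Quotient.mk (mo ν Z) q.1, Ideal.Quotient.mk (mo ν Z) q.2)) ∈ hfin2.toFinset := by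
    intro q hq
    rw [Set.Finite.mem_toFinset] at hq ⊢
    exact (mem_SS T ν Z q.1 q.2).2 hq.1
  rw [Finset.card_eq_sum_card_fiberwise (f := fun q : 𝓞 K × 𝓞 K =>
    ((Ideal.Quotient.mk (mo ν Z) q.1, Ideal.Quotient.mk (mo ν Z) q.2))) hmaps]
  push_cast
  refine Finset.sum_congr rfl fun c hc => ?_
  have hc' := (Set.Finite.mem_toFinset hfin2).1 hc
  congr 1
  have hF : {q : 𝓞 K × 𝓞 K | q.1 - (rp c).1 ∈ mo ν Z ∧ q.2 - (rp c).2 ∈ mo ν Z ∧
      emb σ τ l q.1 q.2 ∈ D}.Finite := hf0.subset fun q hq => hq.2.2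
  rw [Set.ncard_eq_toFinset_card _ hF]
  congr 1
  ext q
  rw [Set.Finite.mem_toFinset, Finset.mem_filter, Set.Finite.mem_toFinset]
  have hq : ((Ideal.Quotient.mk (mo ν Z) q.1, Ideal.Quotient.mk (mo ν Z) q.2)) = c ↔
      q.1 - (rp c).1 ∈ mo ν Z ∧ q.2 - (rp c).2 ∈ mo ν Z := by
    conv_lhs => rw [hrp c]
    rw [Prod.mk.injEq, Ideal.Quotient.eq, Ideal.Quotient.eq]
  constructor
  · rintro ⟨g1, g2, g3⟩
    have hqc := hq.2 ⟨g1, g2⟩
    refine ⟨⟨?_, g3⟩, hqc⟩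
    rw [← mem_SS T, hqc]
    exact hc'
  · rintro ⟨⟨g1, g2⟩, g3⟩
    exact ⟨(hq.1 g3).1, (hq.1 g3).2, g2⟩

end Pool.Agent.P8H88.FF
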