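import Pool.Agent.P8H82.FF.Stm
import Pool.Agent.P8H60.JG.CZero

/-!
# Project FF (helper82), package DENX: the product of the local densities
-/

set_option autoImplicit false

namespace Pool.Agent.P8H88.FF

open NumberField IsDedekindDomain MeasureTheory Filter Topology
open Pool.Agent.P8H82.JG (Gold Triple Rep rad dens Cnd dl nP ord c0 emb Reg KK Jor shp S_LP S_LOC
  S_TL S_SM S_C0)
open Pool.Agent.P8H82.FF
open Pool.Agent.P8H60.JG (two_le_nP dl_zero_pos supp_finite ord_eq_zero_iff)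

variable {K : Type} [Field K] [NumberField K]

lemma dl_nonneg {q : ℝ} (hq : 2 ≤ q) (e : ℕ) : 0 ≤ dl q e := by
  by_cases he : e = 0
  · subst he
    exact (dl_zero_pos hq).le
  · unfold dl
    rw [if_neg he]
    positivity

lemma dx_nonneg {q : ℝ} (hq : 2 ≤ q) (n : ℕ) : 0 ≤ dx q n := by
  unfold dx
  have h1 : 1 / q ≤ 1 / 2 := one_div_le_one_div_of_le (by norm_num) hq
  have h2 : 2 / q ≤ 1 := by
    rw [div_le_one (by linarith)]
    exact hq
  split_ifs with h
  · exact mul_nonneg (by linarith) (by linarith)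
  · positivity

lemma dX_nonneg (T : Finset (HeightOneSpectrum (𝓞 K))) (P : HeightOneSpectrum (𝓞 K)) (n : ℕ) :
    0 ≤ dX T P n := by
  unfold dX
  split_ifs
  · exact dx_nonneg (two_le_nP P) n
  · exact dl_nonneg (two_le_nP P) n

/-- **DENX** -/
theorem denx : S_C0 → S_DENX := by
  intro hC0 K _ _ T w hw
  classical
  obtain ⟨hpos, hprod, -⟩ := hC0 K
  have hA : {P : HeightOneSpectrum (𝓞 K) | P ∈ T ∨ w ≤ P.asIdeal}.Finite :=
    (T.finite_toSet).union (supp_finite hw)
  have hdn : dn T w = c0 K * ∏ P ∈ hA.toFinset, (dX T P (ord P w) / dl (nP P) 0) := by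
    unfold dn
    congr 1
    exact finprod_mem_eq_finite_toFinset_prod
      (fun P : HeightOneSpectrum (𝓞 K) => dX T P (ord P w) / dl (nP P) 0) hA
  have hout : ∀ P : HeightOneSpectrum (𝓞 K), P ∉ hA.toFinset →
      dX T P (ord P w) = dl (nP P) 0 := by
    intro P hP
    rw [Set.Finite.mem_toFinset, Set.mem_setOf_eq, not_or] at hP
    rw [(ord_eq_zero_iff P hw).2 hP.2]
    unfold dX
    rw [if_neg hP.1]
  have hne : ∀ P : HeightOneSpectrum (𝓞 K), dl (nP P) 0 ≠ 0 := fun P =>
    (dl_zero_pos (two_le_nP P)).ne'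
  have hfin : HasProd (fun P : HeightOneSpectrum (𝓞 K) => dX T P (ord P w) / dl (nP P) 0)
      (∏ P ∈ hA.toFinset, (dX T P (ord P w) / dl (nP P) 0)) := by
    apply hasProd_prod_of_ne_finset_one
    intro P hP
    rw [hout P hP, div_self (hne P)]
  refine ⟨?_, ?_⟩
  · rw [hdn]
    have h3 := hprod.mul hfin
    have e3 : (fun P : HeightOneSpectrum (𝓞 K) => dX T P (ord P w)) = fun P =>
        dl (nP P) 0 * (dX T P (ord P w) / dl (nP P) 0) := by
      funext P
      rw [mul_div_cancel₀ _ (hne P)]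
    rw [e3]
    exact h3
  · rw [hdn]
    exact mul_nonneg hpos.le (Finset.prod_nonneg fun P _ =>
      div_nonneg (dX_nonneg T P _) (dl_zero_pos (two_le_nP P)).le)

end Pool.Agent.P8H88.FF
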